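import Pool.Agent.TH193.FHC.Seq

set_option autoImplicit false
namespace Pool.Agent.TH193.FHC

open Filter Topology ZeroAtInfty

lemma tendsto_poly : Tendsto (fun n : ℕ => ((n : ℝ) + 1) / 2 ^ n) atTop (𝓝 0) := by
  have h1 : Tendsto (fun n : ℕ => (n : ℝ) / 2 ^ n) atTop (𝓝 0) := by
    have := tendsto_pow_const_div_const_pow_of_one_lt 1 (r := (2 : ℝ)) (by norm_num)
    simpa using this
  have h2 : Tendsto (fun n : ℕ => (1 : ℝ) / 2 ^ n) atTop (𝓝 0) := by
    have := tendsto_pow_const_div_const_pow_of_one_lt 0 (r := (2 : ℝ)) (by norm_num)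
    simpa using this
  have := h1.add h2
  simpa [add_div] using this

/-- the vector -/
noncomputable def x : C₀(ℕ, ℝ) where
  toFun n := c n / 2 ^ n
  continuous_toFun := continuous_of_discreteTopology
  zero_at_infty' := by
    rw [_root_.cocompact_eq_atTop]
    apply squeeze_zero_norm (a := fun n : ℕ => ((n : ℝ) + 1) / 2 ^ n) _ tendsto_poly
    intro n
    rw [Real.norm_eq_abs, abs_div, abs_of_pos (by positivity : (0 : ℝ) < 2 ^ n)]
    exact div_le_div_of_nonneg_right (abs_c_le n) (by positivity)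

/-- the backward shift -/
noncomputable def B : C₀(ℕ, ℝ) →ₗ[ℝ] C₀(ℕ, ℝ) where
  toFun f := ⟨⟨fun n => 2 * f (n + 1), continuous_of_discreteTopology⟩, by
    have h := zero_at_infty f
    rw [_root_.cocompact_eq_atTop] at h ⊢
    have h2 := (h.comp (tendsto_add_atTop_nat 1)).const_mul 2
    simpa using h2⟩
  map_add' f g := by
    ext n
    change 2 * (f (n + 1) + g (n + 1)) = 2 * f (n + 1) + 2 * g (n + 1)
    ring
  map_smul' r f := by
    ext n
    change 2 * (r * f (n + 1)) = r * (2 * f (n + 1))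
    ring

lemma B_apply (f : C₀(ℕ, ℝ)) (n : ℕ) : B f n = 2 * f (n + 1) := rfl

lemma norm_le_iff (f : C₀(ℕ, ℝ)) {C : ℝ} (hC : 0 ≤ C) : ‖f‖ ≤ C ↔ ∀ n, |f n| ≤ C := by
  rw [← ZeroAtInftyContinuousMap.norm_toBCF_eq_norm, BoundedContinuousFunction.norm_le hC]
  rfl

lemma abs_apply_le (f : C₀(ℕ, ℝ)) (n : ℕ) : |f n| ≤ ‖f‖ :=
  (norm_le_iff f (norm_nonneg f)).1 le_rfl n

/-- the operator -/
noncomputable def T : C₀(ℕ, ℝ) →L[ℝ] C₀(ℕ, ℝ) := B.mkContinuous 2 (by
  intro f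
  rw [norm_le_iff _ (by positivity)]
  intro n
  rw [B_apply, abs_mul, abs_two]
  exact mul_le_mul_of_nonneg_left (abs_apply_le f _) (by norm_num))

lemma T_apply (f : C₀(ℕ, ℝ)) (n : ℕ) : T f n = 2 * f (n + 1) := rfl

lemma iter_apply (m : ℕ) (f : C₀(ℕ, ℝ)) (n : ℕ) : (T^[m] f) n = 2 ^ m * f (m + n) := by
  induction m generalizing n with
  | zero => simp
  | succ m ih =>
    rw [Function.iterate_succ_apply', T_apply, ih, pow_succ]
    have : m + (n + 1) = m + 1 + n := by ring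
    rw [this]; ring

lemma iter_x (m n : ℕ) : (T^[m] x) n = c (m + n) / 2 ^ n := by
  rw [iter_apply]
  change 2 ^ m * (c (m + n) / 2 ^ (m + n)) = _
  rw [pow_add]
  field_simp

/-- every open set is visited at all starting times of the blocks of some type -/
lemma exists_type (U : Set C₀(ℕ, ℝ)) (hU : IsOpen U) (hne : U.Nonempty) :
    ∃ e : ℕ, ∀ k, padicValNat 2 (k + 1) = e → T^[ps k] x ∈ U := by
  obtain ⟨y, hy⟩ := hne
  obtain ⟨r, hr, hball⟩ := Metric.isOpen_iff.1 hU y hy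
  have hy0 := zero_at_infty y
  rw [_root_.cocompact_eq_atTop] at hy0
  obtain ⟨m, hm⟩ := (Metric.tendsto_atTop.1 hy0) (r / 3) (by positivity)
  have hq : ∀ i : ℕ, ∃ q : ℚ, |(q : ℝ) - 2 ^ i * y i| < r / 3 := by
    intro i
    obtain ⟨q, hq1, hq2⟩ := exists_rat_btwn (show 2 ^ i * y i - r / 3 < 2 ^ i * y i by linarith)
    refine ⟨q, ?_⟩
    rw [abs_lt]; constructor <;> linarith
  choose q hq using hq
  let L : List ℚ := List.ofFn (fun i : Fin m => q i)
  have hLlen : L.length = m := by simp [L]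
  obtain ⟨M, hM⟩ : ∃ M : ℕ, ∀ t ∈ L, |t| ≤ (M : ℚ) := by
    obtain ⟨M, hM⟩ := exists_nat_ge (∑ i : Fin m, |q i|)
    refine ⟨M, fun t ht => ?_⟩
    rw [List.mem_ofFn] at ht
    obtain ⟨i, rfl⟩ := ht
    refine le_trans ?_ hM
    exact Finset.single_le_sum (f := fun i : Fin m => |q i|) (fun i _ => abs_nonneg _)
      (Finset.mem_univ i)
  obtain ⟨N, hN⟩ := (Metric.tendsto_atTop.1 tendsto_poly) (r / 3) (by positivity)
  let b := m + M + N
  let e := Nat.pair (Encodable.encode L) b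
  have heb : b ≤ e := Nat.right_le_pair _ _
  refine ⟨e, fun k hk => hball ?_⟩
  have hdl : dl k = e + 1 := by unfold dl; rw [hk]
  have hpt : ∀ i, pt e i = ((L.getD i 0 : ℚ) : ℝ) := by
    intro i
    apply pt_pair
    · rw [hLlen]; change m ≤ e + 1; omega
    · intro t ht
      refine (hM t ht).trans ?_
      have : M ≤ e + 1 := by omega
      exact_mod_cast this
  rw [Metric.mem_ball, dist_eq_norm]
  refine lt_of_le_of_lt ((norm_le_iff _ (by positivity : 0 ≤ 2 * r / 3)).2 ?_) (by linarith)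
  intro i
  rw [ZeroAtInftyContinuousMap.sub_apply, iter_x]
  have hpos : (1 : ℝ) ≤ 2 ^ i := one_le_pow₀ (by norm_num)
  by_cases hi : i < e + 1
  · have hc : c (ps k + i) = ((L.getD i 0 : ℚ) : ℝ) := by
      rw [c_eq (k := k) (by omega) (by omega), hk, Nat.add_sub_cancel_left, hpt]
    rw [hc]
    by_cases him : i < m
    · have : L.getD i 0 = q i := by
        rw [List.getD_eq_getElem _ _ (by omega)]
        simp [L]
      rw [this]
      have h1 : (q i : ℝ) / 2 ^ i - y i = ((q i : ℝ) - 2 ^ i * y i) / 2 ^ i := by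
        field_simp
      rw [h1, abs_div, abs_of_pos (by positivity : (0 : ℝ) < 2 ^ i)]
      have h2 : |(q i : ℝ) - 2 ^ i * y i| / 2 ^ i ≤ |(q i : ℝ) - 2 ^ i * y i| :=
        div_le_self (abs_nonneg _) hpos
      have := hq i
      linarith
    · have : L.getD i 0 = 0 := List.getD_eq_default _ _ (by omega)
      rw [this]
      have h1 := hm i (by omega)
      rw [Real.dist_eq, sub_zero] at h1
      simp only [Rat.cast_zero, zero_div, zero_sub, abs_neg]
      linarith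
  · have h1 := abs_c_le_of_ge (k := k) (i := i) (by omega)
    have h2 := hN i (by omega)
    rw [Real.dist_eq, sub_zero] at h2
    have h3 := hm i (by omega)
    rw [Real.dist_eq, sub_zero] at h3
    have h4 : |c (ps k + i) / 2 ^ i| ≤ ((i : ℝ) + 1) / 2 ^ i := by
      rw [abs_div, abs_of_pos (by positivity : (0 : ℝ) < 2 ^ i)]
      apply div_le_div_of_nonneg_right _ (by positivity)
      linarith
    have h5 : ((i : ℝ) + 1) / 2 ^ i < r / 3 := (le_abs_self _).trans_lt h2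
    calc |c (ps k + i) / 2 ^ i - y i| ≤ |c (ps k + i) / 2 ^ i| + |y i| := abs_sub _ _
      _ ≤ 2 * r / 3 := by linarith

lemma freq (U : Set C₀(ℕ, ℝ)) (hU : IsOpen U) (hne : U.Nonempty) :
    ∃ δ : ℝ, 0 < δ ∧ ∀ᶠ n : ℕ in Filter.atTop,
      δ * (n : ℝ) ≤ (({k : ℕ | k < n ∧ T^[k] x ∈ U}.ncard : ℕ) : ℝ) := by
  obtain ⟨e, he⟩ := exists_type U hU hne
  refine ⟨1 / 2 ^ (e + 5), by positivity, ?_⟩
  filter_upwards [eventually_ge_atTop (2 ^ (e + 5))] with n hn
  let J := n / 2 ^ (e + 4)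
  let g : ℕ → ℕ := fun j => ps (2 ^ e * (2 * j + 1) - 1)
  have hg : Set.InjOn g (Set.Iio J) := by
    intro a _ b _ hab
    have h1 := ps_strictMono.injective hab
    have h2 : 1 ≤ 2 ^ e := Nat.one_le_two_pow
    have ha : 1 ≤ 2 ^ e * (2 * a + 1) := Nat.mul_pos (by omega) (by omega)
    have hb : 1 ≤ 2 ^ e * (2 * b + 1) := Nat.mul_pos (by omega) (by omega)
    have h3 : 2 ^ e * (2 * a + 1) = 2 ^ e * (2 * b + 1) := by omega
    have h4 := Nat.eq_of_mul_eq_mul_left (by omega) h3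
    omega
  have hsub : g '' (Set.Iio J) ⊆ {k : ℕ | k < n ∧ T^[k] x ∈ U} := by
    rintro _ ⟨j, hj, rfl⟩
    have hj' : j < J := hj
    have h2 : 1 ≤ 2 ^ e := Nat.one_le_two_pow
    have ha : 1 ≤ 2 ^ e * (2 * j + 1) := Nat.mul_pos (by omega) (by omega)
    constructor
    · have h3 := ps_le (2 ^ e * (2 * j + 1) - 1)
      have h4 : 2 ^ e * (2 * j + 1) - 1 + 1 = 2 ^ e * (2 * j + 1) := by omega
      rw [h4] at h3
      have h5 : J * 2 ^ (e + 4) ≤ n := Nat.div_mul_le_self _ _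
      have h6 : 2 ^ (e + 4) = 16 * 2 ^ e := by rw [pow_add]; ring
      rw [h6] at h5
      have h7 : (j + 1) * (16 * 2 ^ e) ≤ J * (16 * 2 ^ e) := Nat.mul_le_mul_right _ hj'
      have h8 : 7 * (2 ^ e * (2 * j + 1)) < (j + 1) * (16 * 2 ^ e) := by
        nlinarith
      change ps (2 ^ e * (2 * j + 1) - 1) < n
      omega
    · apply he
      have h4 : 2 ^ e * (2 * j + 1) - 1 + 1 = 2 ^ e * (2 * j + 1) := by omega
      rw [h4, padicValNat.mul (by positivity) (by omega), padicValNat.prime_pow,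
        padicValNat.eq_zero_of_not_dvd (by omega), Nat.add_zero]
  have hfin : {k : ℕ | k < n ∧ T^[k] x ∈ U}.Finite :=
    (Set.finite_Iio n).subset (fun k hk => hk.1)
  have hcard : J ≤ {k : ℕ | k < n ∧ T^[k] x ∈ U}.ncard := by
    have h1 := Set.ncard_le_ncard hsub hfin
    rw [hg.ncard_image] at h1
    have h2 : (Set.Iio J).ncard = J := by
      rw [← Finset.coe_Iio, Set.ncard_coe_finset, Nat.card_Iio]
    omega
  have h1 : n < (J + 1) * 2 ^ (e + 4) := by
    have := Nat.lt_div_mul_add (a := n) (b := 2 ^ (e + 4)) (by positivity)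
    calc n < n / 2 ^ (e + 4) * 2 ^ (e + 4) + 2 ^ (e + 4) := this
      _ = (J + 1) * 2 ^ (e + 4) := by ring
  have hJ1 : 1 ≤ J := by
    apply (Nat.one_le_div_iff (by positivity)).2
    refine le_trans ?_ hn
    exact Nat.pow_le_pow_right (by norm_num) (by omega)
  have h2 : n ≤ J * 2 ^ (e + 5) := by
    have : 2 ^ (e + 5) = 2 * 2 ^ (e + 4) := by rw [pow_succ]; ring
    rw [this]
    nlinarith [Nat.zero_le (2 ^ (e + 4))]
  have h3 : (n : ℝ) ≤ (J : ℝ) * 2 ^ (e + 5) := by exact_mod_cast h2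
  have h4 : (J : ℝ) ≤ (({k : ℕ | k < n ∧ T^[k] x ∈ U}.ncard : ℕ) : ℝ) := by exact_mod_cast hcard
  refine le_trans ?_ h4
  rw [one_div, inv_mul_le_iff₀ (by positivity)]
  linarith

lemma no_density (A : Set ℕ) (hA : A ⊆ {k : ℕ | T^[k] x ∈ {f : C₀(ℕ, ℝ) | f 0 ≠ 0}}) :
    ¬ ∃ d : ℝ, 0 < d ∧ Filter.Tendsto
      (fun n : ℕ => (({k : ℕ | k < n ∧ k ∈ A}.ncard : ℕ) : ℝ) / (n : ℝ))
        Filter.atTop (nhds d) := by
  rintro ⟨d, hd, hlim⟩
  have hAc : ∀ n ∈ A, ∃ k, ps k ≤ n ∧ n < ps k + dl k := by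
    intro n hn
    have := hA hn
    apply exists_of_c_ne
    simp only [Set.mem_ofPred_eq, iter_x] at this
    simpa using this
  let P : ℕ → ℕ := fun s => ps (2 ^ (s + 1) - 2) + dl (2 ^ (s + 1) - 2)
  let Q : ℕ → ℕ := fun s => ps (2 ^ (s + 1) - 1)
  have hPQ : ∀ s, P s + 2 ^ (s + 1) ≤ Q s := fun s => ps_gap (s + 1) (by omega)
  have hPQ' : ∀ s, P s + 1 ≤ Q s := by
    intro s
    have h1 : 1 ≤ 2 ^ (s + 1) := Nat.one_le_two_pow
    have h2 := hPQ s
    omega
  have hQle : ∀ s, Q s ≤ 7 * 2 ^ (s + 1) := by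
    intro s
    have h1 := ps_le (2 ^ (s + 1) - 1)
    have : 1 ≤ 2 ^ (s + 1) := Nat.one_le_two_pow
    have h2 : 2 ^ (s + 1) - 1 + 1 = 2 ^ (s + 1) := by omega
    rw [h2] at h1
    exact h1
  have hs2 : ∀ s, s + 1 ≤ 2 ^ (s + 1) := fun s => (Nat.lt_two_pow_self).le
  have hP1 : ∀ s, s ≤ P s := by
    intro s
    have h1 := le_ps (2 ^ (s + 1) - 2)
    have h2 := dl_pos (2 ^ (s + 1) - 2)
    have h3 := hs2 s
    change s ≤ ps (2 ^ (s + 1) - 2) + dl (2 ^ (s + 1) - 2)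
    omega
  have hPpos : ∀ s, 1 ≤ P s := by
    intro s
    have h2 := dl_pos (2 ^ (s + 1) - 2)
    change 1 ≤ ps (2 ^ (s + 1) - 2) + dl (2 ^ (s + 1) - 2)
    omega
  have hQ1 : ∀ s, s ≤ Q s := fun s => by have := hP1 s; have := hPQ' s; omega
  have hPt : Tendsto P atTop atTop := tendsto_atTop_mono hP1 tendsto_id
  have hQt : Tendsto Q atTop atTop := tendsto_atTop_mono hQ1 tendsto_id
  have hcount : ∀ s, {k : ℕ | k < P s ∧ k ∈ A} = {k : ℕ | k < Q s ∧ k ∈ A} := by
    intro s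
    ext n
    constructor
    · rintro ⟨h1, h2⟩
      have := hPQ' s
      exact ⟨by omega, h2⟩
    · rintro ⟨h1, h2⟩
      refine ⟨?_, h2⟩
      obtain ⟨k, hk1, hk2⟩ := hAc n h2
      have h3 : k < 2 ^ (s + 1) - 1 := by
        by_contra hcon
        have := ps_strictMono.monotone (show 2 ^ (s + 1) - 1 ≤ k by omega)
        have : Q s = ps (2 ^ (s + 1) - 1) := rfl
        omega
      have h4 : k ≤ 2 ^ (s + 1) - 2 := by omega
      change n < ps (2 ^ (s + 1) - 2) + dl (2 ^ (s + 1) - 2)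
      rcases h4.lt_or_eq with h5 | h5
      · have := ps_sep h5
        omega
      · rw [← h5]; exact hk2
  have hl1 := hlim.comp hPt
  have hl2 := (hlim.comp hQt).const_mul (7 / 6)
  have hle : 7 / 6 * d ≤ d := by
    apply le_of_tendsto_of_tendsto' hl2 hl1
    intro s
    simp only [Function.comp]
    rw [hcount s]
    have hPr : (0 : ℝ) < P s := by exact_mod_cast hPpos s
    have hQr : (0 : ℝ) < Q s := by
      have := hPpos s
      have := hPQ' s
      exact_mod_cast (by omega : 0 < Q s)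
    have h6 : (7 : ℝ) * P s ≤ 6 * Q s := by
      have h1 := hPQ s
      have h2 := hQle s
      exact_mod_cast (by omega : 7 * P s ≤ 6 * Q s)
    have hc0 : (0 : ℝ) ≤ (({k : ℕ | k < Q s ∧ k ∈ A}.ncard : ℕ) : ℝ) := by positivity
    rw [← mul_div_assoc, div_le_div_iff₀ hQr hPr]
    nlinarith
  linarith

end Pool.Agent.TH193.FHC
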