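import Mathlib

set_option autoImplicit false
namespace Pool.Agent.TH193.FHC

open Filter Topology

/-- length of the block number `k` -/
def dl (k : ℕ) : ℕ := padicValNat 2 (k + 1) + 1

/-- starting position of the block number `k` -/
def ps (k : ℕ) : ℕ :=
  2 * (k + padicValNat 2 (Nat.factorial k)) + dl k + 2 ^ (Nat.log 2 (k + 1) + 1)

lemma dl_pos (k : ℕ) : 1 ≤ dl k := by unfold dl; omega

lemma dl_le (k : ℕ) : dl k ≤ k + 1 := by
  have h1 : 2 ^ padicValNat 2 (k + 1) ≤ k + 1 :=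
    Nat.le_of_dvd (Nat.succ_pos k) pow_padicValNat_dvd
  have h2 : padicValNat 2 (k + 1) < 2 ^ padicValNat 2 (k + 1) := Nat.lt_two_pow_self
  unfold dl; omega

lemma vfact_succ (k : ℕ) : padicValNat 2 (Nat.factorial (k + 1)) =
    padicValNat 2 (k + 1) + padicValNat 2 (Nat.factorial k) := by
  rw [Nat.factorial_succ, padicValNat.mul (by omega) (Nat.factorial_ne_zero k)]

lemma vfact_le (k : ℕ) : padicValNat 2 (Nat.factorial k) ≤ k := by
  have := sub_one_mul_padicValNat_factorial (p := 2) k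
  omega

lemma ps_succ_eq (k : ℕ) : ps (k + 1) + 2 ^ (Nat.log 2 (k + 1) + 1) =
    ps k + dl k + dl (k + 1) + 2 ^ (Nat.log 2 (k + 2) + 1) := by
  unfold ps
  rw [vfact_succ]
  have : dl k = padicValNat 2 (k + 1) + 1 := rfl
  have h2 : k + 1 + 1 = k + 2 := rfl
  rw [h2]
  omega

lemma ps_succ (k : ℕ) : ps k + dl k + dl (k + 1) ≤ ps (k + 1) := by
  have h := ps_succ_eq k
  have h2 : 2 ^ (Nat.log 2 (k + 1) + 1) ≤ 2 ^ (Nat.log 2 (k + 2) + 1) := by
    apply Nat.pow_le_pow_right (by norm_num)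
    have := Nat.log_mono_right (b := 2) (show k + 1 ≤ k + 2 by omega)
    omega
  omega

lemma ps_sep {k l : ℕ} (h : k < l) : ps k + dl k + dl l ≤ ps l := by
  induction l, h using Nat.le_induction with
  | base => exact ps_succ k
  | succ l hl ih =>
    have := ps_succ l
    omega

lemma ps_le (k : ℕ) : ps k ≤ 7 * (k + 1) := by
  have h1 := vfact_le k
  have h2 := dl_le k
  have h3 : 2 ^ Nat.log 2 (k + 1) ≤ k + 1 := Nat.pow_log_le_self 2 (by omega)
  unfold ps
  rw [pow_succ]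
  omega

lemma le_ps (k : ℕ) : k ≤ ps k := by
  unfold ps
  have : 0 < 2 ^ (Nat.log 2 (k + 1) + 1) := by positivity
  omega

lemma ps_strictMono : StrictMono ps := by
  intro a b h
  have := ps_sep h
  have := dl_pos a
  omega

lemma ps_gap (s : ℕ) (hs : 1 ≤ s) :
    ps (2 ^ s - 2) + dl (2 ^ s - 2) + 2 ^ s ≤ ps (2 ^ s - 1) := by
  have h2 : 2 ≤ 2 ^ s := by
    calc 2 = 2 ^ 1 := rfl
      _ ≤ 2 ^ s := Nat.pow_le_pow_right (by norm_num) hs
  obtain ⟨k, hk⟩ : ∃ k, 2 ^ s = k + 2 := ⟨2 ^ s - 2, by omega⟩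
  have h := ps_succ_eq k
  have hl2 : Nat.log 2 (k + 2) = s := by rw [← hk]; exact Nat.log_pow (by norm_num) s
  have hl1 : Nat.log 2 (k + 1) + 1 = s := by
    obtain ⟨t, rfl⟩ : ∃ t, s = t + 1 := ⟨s - 1, by omega⟩
    have : Nat.log 2 (k + 1) = t := by
      rw [Nat.log_eq_iff (Or.inr ⟨by norm_num, by omega⟩)]
      constructor
      · rw [pow_succ] at hk
        have : 1 ≤ 2 ^ t := Nat.one_le_two_pow
        omega
      · omega
    omega
  rw [hl2, hl1, pow_succ] at h
  have e1 : 2 ^ s - 2 = k := by omega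
  have e2 : 2 ^ s - 1 = k + 1 := by omega
  rw [e1, e2]
  omega

/-- the pattern number `e` -/
noncomputable def pt (e i : ℕ) : ℝ :=
  let L : List ℚ := (Encodable.decode (Nat.unpair e).1).getD []
  if L.length ≤ e + 1 ∧ (∀ q ∈ L, |q| ≤ e + 1) then ((L.getD i 0 : ℚ) : ℝ) else 0

lemma abs_pt_le (e i : ℕ) : |pt e i| ≤ e + 1 := by
  unfold pt
  simp only
  split_ifs with h
  · by_cases hi : i < ((Encodable.decode (Nat.unpair e).1).getD [] : List ℚ).length
    · rw [List.getD_eq_getElem _ _ hi]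
      have := h.2 _ (List.getElem_mem hi)
      exact_mod_cast this
    · rw [List.getD_eq_default _ _ (by omega)]
      simp; positivity
  · simp; positivity

lemma pt_pair (L : List ℚ) (b : ℕ)
    (h1 : L.length ≤ Nat.pair (Encodable.encode L) b + 1)
    (h2 : ∀ q ∈ L, |q| ≤ (Nat.pair (Encodable.encode L) b : ℕ) + 1) (i : ℕ) :
    pt (Nat.pair (Encodable.encode L) b) i = ((L.getD i 0 : ℚ) : ℝ) := by
  unfold pt
  simp only [Nat.unpair_pair, Encodable.encodek, Option.getD_some]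
  rw [if_pos ⟨h1, h2⟩]

/-- the sequence -/
noncomputable def c (n : ℕ) : ℝ :=
  ∑ k ∈ Finset.range (n + 1),
    if ps k ≤ n ∧ n < ps k + dl k then pt (padicValNat 2 (k + 1)) (n - ps k) else 0

lemma c_eq {k n : ℕ} (h1 : ps k ≤ n) (h2 : n < ps k + dl k) :
    c n = pt (padicValNat 2 (k + 1)) (n - ps k) := by
  unfold c
  rw [Finset.sum_eq_single k]
  · rw [if_pos ⟨h1, h2⟩]
  · intro l _ hl
    rw [if_neg]
    rintro ⟨h3, h4⟩
    rcases lt_or_gt_of_ne hl with h | h
    · have := ps_sep h; omega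
    · have := ps_sep h; omega
  · intro h
    exfalso
    apply h
    rw [Finset.mem_range]
    have := le_ps k
    omega

lemma exists_of_c_ne {n : ℕ} (h : c n ≠ 0) : ∃ k, ps k ≤ n ∧ n < ps k + dl k := by
  by_contra hc
  push Not at hc
  apply h
  unfold c
  apply Finset.sum_eq_zero
  intro k _
  rw [if_neg]
  rintro ⟨h1, h2⟩
  have := hc k h1
  omega

lemma abs_c_le_dl {k n : ℕ} (h1 : ps k ≤ n) (h2 : n < ps k + dl k) : |c n| ≤ dl k := by
  rw [c_eq h1 h2]
  refine (abs_pt_le _ _).trans ?_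
  unfold dl
  push_cast
  exact le_refl _

lemma abs_c_le (n : ℕ) : |c n| ≤ n + 1 := by
  by_cases h : c n = 0
  · rw [h]; simp; positivity
  · obtain ⟨k, h1, h2⟩ := exists_of_c_ne h
    refine (abs_c_le_dl h1 h2).trans ?_
    have := dl_le k
    have := le_ps k
    have : dl k ≤ n + 1 := by omega
    exact_mod_cast this

lemma abs_c_le_of_ge {k i : ℕ} (hi : dl k ≤ i) : |c (ps k + i)| ≤ i := by
  by_cases h : c (ps k + i) = 0
  · rw [h]; simp
  · obtain ⟨l, h1, h2⟩ := exists_of_c_ne h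
    refine (abs_c_le_dl h1 h2).trans ?_
    have : dl l ≤ i := by
      rcases lt_trichotomy k l with h | h | h
      · have := ps_sep h; omega
      · subst h; omega
      · have := ps_sep h; omega
    exact_mod_cast this

end Pool.Agent.TH193.FHC
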